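import Pool.Agent.Helper70.Matching.Specs1

/-! Packet M-A3 (noise operator).  helper63. -/

set_option autoImplicit false
set_option linter.unusedSectionVars false
set_option linter.unusedSimpArgs false
open Finset

namespace Pool.Agent.Helper63.Matching

open Pool.Agent.Helper70.Matching

noncomputable section

variable {K α : Type} [Fintype K] [DecidableEq K] [Fintype α] {w : K → α → ℝ}

/-- weight of a set of coordinates -/
def wt (K : Type) [Fintype K] (θ : ℝ) (A : Finset K) : ℝ :=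
  θ ^ A.card * (1 - θ) ^ (Fintype.card K - A.card)

lemma sum_wt (θ : ℝ) : ∑ A : Finset K, wt K θ A = 1 := by
  have h := Fintype.sum_pow_mul_eq_add_pow K θ (1 - θ)
  unfold wt
  rw [h]
  simp

lemma wt_nonneg {θ : ℝ} (h0 : 0 < θ) (h1 : θ < 1) (A : Finset K) : 0 ≤ wt K θ A :=
  mul_nonneg (pow_nonneg h0.le _) (pow_nonneg (by linarith) _)

lemma wt_insert {θ : ℝ} (k : K) {A : Finset K} (hk : k ∉ A) :
    θ * wt K θ A = (1 - θ) * wt K θ (insert k A) := by
  have hlt : A.card < Fintype.card K := by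
    have : A ⊂ univ := by
      refine (Finset.ssubset_univ_iff).2 ?_
      intro h
      exact hk (h ▸ mem_univ k)
    simpa using Finset.card_lt_card this
  unfold wt
  rw [Finset.card_insert_of_notMem hk]
  obtain ⟨m, hm⟩ : ∃ m, Fintype.card K = A.card + 1 + m := ⟨Fintype.card K - (A.card + 1), by omega⟩
  have h1 : Fintype.card K - A.card = m + 1 := by omega
  have h2 : Fintype.card K - (A.card + 1) = m := by omega
  rw [h1, h2]
  ring

/-- change of variable between sets not containing `k` and sets containing `k` -/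
lemma sum_shift {θ : ℝ} (h0 : 0 < θ) (k : K) (f : Finset K → ℝ) :
    ∑ A ∈ univ.filter (fun A : Finset K => k ∉ A), wt K θ A * f (insert k A)
      = ((1 - θ) / θ) * ∑ A ∈ univ.filter (fun A : Finset K => k ∈ A), wt K θ A * f A := by
  rw [Finset.mul_sum]
  refine Finset.sum_nbij' (fun A => insert k A) (fun A => A.erase k) ?_ ?_ ?_ ?_ ?_
  · intro A hA; simp
  · intro A hA; simp
  · intro A hA
    have : k ∉ A := by simpa using hA
    exact Finset.erase_insert this
  · intro A hA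
    have : k ∈ A := by simpa using hA
    exact Finset.insert_erase this
  · intro A hA
    have hk : k ∉ A := by simpa using hA
    have := wt_insert (θ := θ) k hk
    have h3 : wt K θ A = ((1 - θ) / θ) * wt K θ (insert k A) := by
      field_simp
      linarith
    rw [h3]
    ring

lemma sum_wt_mem {θ : ℝ} (h0 : 0 < θ) (k : K) :
    ∑ A ∈ univ.filter (fun A : Finset K => k ∈ A), wt K θ A = θ := by
  have h := sum_shift (K := K) h0 k (fun _ => 1)
  simp only [mul_one] at h
  have ht := sum_wt (K := K) θ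
  rw [← Finset.sum_filter_add_sum_filter_not univ (fun A : Finset K => k ∈ A)] at ht
  rw [h] at ht
  set S := ∑ A ∈ univ.filter (fun A : Finset K => k ∈ A), wt K θ A with hS
  have h2 : S * (1 + (1 - θ) / θ) = 1 := by linarith
  have h3 : 1 + (1 - θ) / θ = 1 / θ := by field_simp; ring
  rw [h3] at h2
  field_simp at h2
  exact h2

lemma sum_wt_card {θ : ℝ} (h0 : 0 < θ) (c : ℝ) :
    ∑ A : Finset K, wt K θ A * (A.card * c) = θ * c * Fintype.card K := by
  have h1 : ∀ A : Finset K, wt K θ A * ((A.card : ℝ) * c) =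
      ∑ k : K, if k ∈ A then wt K θ A * c else 0 := by
    intro A
    rw [← Finset.sum_filter]
    simp only [Finset.sum_const, nsmul_eq_mul]
    have : (univ.filter (fun k => k ∈ A)) = A := by ext; simp
    rw [this]
    ring
  simp only [h1]
  rw [Finset.sum_comm]
  have h2 : ∀ k : K, (∑ A : Finset K, if k ∈ A then wt K θ A * c else 0) = θ * c := by
    intro k
    rw [← Finset.sum_filter, ← Finset.sum_mul, sum_wt_mem h0]
  simp only [h2, Finset.sum_const, nsmul_eq_mul, Finset.card_univ]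
  ring

/-- Jensen for a convex combination -/
lemma jensen_sq {ι : Type} (s : Finset ι) (p f : ι → ℝ) (hp : ∀ i ∈ s, 0 ≤ p i)
    (h1 : ∑ i ∈ s, p i = 1) : (∑ i ∈ s, p i * f i) ^ 2 ≤ ∑ i ∈ s, p i * f i ^ 2 := by
  have h := Finset.sum_sq_le_sum_mul_sum_of_sq_le_mul s (r := fun i => p i * f i) (f := p)
    (g := fun i => p i * f i ^ 2) hp (fun i hi => mul_nonneg (hp i hi) (sq_nonneg _))
    (fun i hi => le_of_eq (by ring))
  rw [h1, one_mul] at h
  exact h

/-- the noise operator -/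
def TN (w : K → α → ℝ) (θ : ℝ) (G : (K → α) → ℝ) (u : K → α) : ℝ :=
  ∑ A : Finset K, wt K θ A * PE w Aᶜ G u

lemma PE_mul_left (A : Finset K) (c : ℝ) (f : (K → α) → ℝ) :
    PE w A (fun u => c * f u) = fun u => c * PE w A f u := by
  funext u; unfold PE; exact Ex_mul_left _ _

lemma PE_TN (hw : IsWt w) (θ : ℝ) (G : (K → α) → ℝ) (B : Finset K) :
    PE w B (TN w θ G) = fun u => ∑ A : Finset K, wt K θ A * PE w (B ∩ Aᶜ) G u := by
  have h1 : PE w B (TN w θ G) = PE w B (fun u => ∑ A ∈ (univ : Finset (Finset K)),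
      (fun (A : Finset K) (u : K → α) => wt K θ A * PE w Aᶜ G u) A u) := rfl
  rw [h1, PE_sum]
  funext u
  refine Finset.sum_congr rfl fun A _ => ?_
  simp only [PE_mul_left, PE_PE hw]

lemma Ex_TN (hw : IsWt w) (θ : ℝ) (G : (K → α) → ℝ) : Ex w (TN w θ G) = Ex w G := by
  have h := congrFun (PE_TN hw θ G ∅)
  by_cases hne : Nonempty (K → α)
  · obtain ⟨u⟩ := hne
    have h2 := h u
    rw [PE_empty] at h2
    rw [h2]
    simp only [Finset.empty_inter, PE_empty]
    rw [← Finset.sum_mul, sum_wt, one_mul]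
  · have : IsEmpty (K → α) := not_nonempty_iff.1 hne
    unfold Ex
    simp

/-- step (1): a projection difference as an averaged variance -/
lemma step1 (hw : IsWt w) (G : (K → α) → ℝ) (A : Finset K) (k : K) (hk : k ∈ A) :
    Ex w (fun u => Vr w (PE w {k} (fun x => G (A.piecewise x u)))) =
      Ex w (fun u => (PE w (insert k Aᶜ) G u - PE w Aᶜ G u) ^ 2) := by
  set Ψ : (K → α) → ℝ := fun u => (PE w (insert k Aᶜ) G u - PE w Aᶜ G u) ^ 2 with hΨ
  rw [← Ex_PE hw Aᶜ Ψ]
  congr 1
  funext u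
  unfold Vr
  rw [Ex_PE hw]
  show _ = Ex w (fun x => Ψ (Aᶜ.piecewise u x))
  congr 1
  funext x
  rw [hΨ]
  have h1 : PE w {k} (fun x => G (A.piecewise x u)) x = PE w (insert k Aᶜ) G (Aᶜ.piecewise u x) := by
    unfold PE
    congr 1
    funext y
    show G (A.piecewise (({k} : Finset K).piecewise x y) u) = _
    congr 1
    funext j
    by_cases hj : j ∈ A
    · by_cases hjk : j = k
      · subst hjk; simp [Finset.piecewise, hj]
      · simp [Finset.piecewise, hj, hjk]
    · have hjk : j ≠ k := fun h => hj (h ▸ hk)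
      simp [Finset.piecewise, hj]
  have h2 : Ex w (fun x => G (A.piecewise x u)) = PE w Aᶜ G (Aᶜ.piecewise u x) := by
    unfold PE
    congr 1
    funext y
    congr 1
    funext j
    by_cases hj : j ∈ A
    · simp [Finset.piecewise, hj]
    · simp [Finset.piecewise, hj]
  rw [h1, h2]

lemma step1_sum (hw : IsWt w) (G : (K → α) → ℝ) (v : ℝ)
    (h : ∀ (A : Finset K) (u : K → α),
      ∑ k, Vr w (PE w {k} (fun x => G (A.piecewise x u))) ≤ v * Fintype.card K)
    (A : Finset K) :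
    ∑ k ∈ A, Ex w (fun u => (PE w (insert k Aᶜ) G u - PE w Aᶜ G u) ^ 2) ≤ v * Fintype.card K := by
  have h1 : ∑ k ∈ A, Ex w (fun u => (PE w (insert k Aᶜ) G u - PE w Aᶜ G u) ^ 2) =
      ∑ k ∈ A, Ex w (fun u => Vr w (PE w {k} (fun x => G (A.piecewise x u)))) :=
    Finset.sum_congr rfl fun k hk => (step1 hw G A k hk).symm
  rw [h1]
  have h2 : ∑ k ∈ A, Ex w (fun u => Vr w (PE w {k} (fun x => G (A.piecewise x u)))) ≤
      ∑ k, Ex w (fun u => Vr w (PE w {k} (fun x => G (A.piecewise x u)))) := by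
    refine Finset.sum_le_sum_of_subset_of_nonneg (Finset.subset_univ _) fun k _ _ => ?_
    exact Ex_nonneg hw fun u => Vr_nonneg hw _
  refine h2.trans ?_
  have h3 : ∑ k, Ex w (fun u => Vr w (PE w {k} (fun x => G (A.piecewise x u)))) =
      Ex w (fun u => ∑ k, Vr w (PE w {k} (fun x => G (A.piecewise x u)))) := by
    rw [Ex_sum]
  rw [h3]
  exact Ex_le_of_le hw fun u => h A u

lemma step2 (hw : IsWt w) (G : (K → α) → ℝ) (v θ : ℝ) (h0 : 0 < θ) (hθ : θ < 1) (hv : 0 ≤ v)
    (h : ∀ (A : Finset K) (u : K → α),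
      ∑ k, Vr w (PE w {k} (fun x => G (A.piecewise x u))) ≤ v * Fintype.card K) :
    Vr w (TN w θ G) ≤ (v / θ) * Fintype.card K := by
  refine (efron_stein_Vr hw _).trans ?_
  set F : K → Finset K → ℝ := fun k A => Ex w (fun u => (PE w (insert k Aᶜ) G u - PE w Aᶜ G u) ^ 2)
    with hF
  have key : ∀ k : K, Ex w (fun u => (TN w θ G u - PE w {k}ᶜ (TN w θ G) u) ^ 2) ≤
      ((1 - θ) / θ) * ∑ A ∈ univ.filter (fun A : Finset K => k ∈ A), wt K θ A * F k A := by
    intro k
    rw [← sum_shift h0 k]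
    have e1 : ∀ u, (TN w θ G u - PE w {k}ᶜ (TN w θ G) u) ^ 2 ≤
        ∑ A : Finset K, wt K θ A * (PE w Aᶜ G u - PE w ({k}ᶜ ∩ Aᶜ) G u) ^ 2 := by
      intro u
      rw [PE_TN hw]
      have : TN w θ G u - ∑ A : Finset K, wt K θ A * PE w ({k}ᶜ ∩ Aᶜ) G u =
          ∑ A : Finset K, wt K θ A * (PE w Aᶜ G u - PE w ({k}ᶜ ∩ Aᶜ) G u) := by
        unfold TN
        rw [← Finset.sum_sub_distrib]
        refine Finset.sum_congr rfl fun A _ => by ring
      simp only [this]
      exact jensen_sq univ _ _ (fun A _ => wt_nonneg h0 hθ A) (sum_wt θ)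
    refine (Ex_mono hw e1).trans ?_
    have e2 : Ex w (fun u => ∑ A : Finset K, wt K θ A * (PE w Aᶜ G u - PE w ({k}ᶜ ∩ Aᶜ) G u) ^ 2) =
        ∑ A : Finset K, wt K θ A * Ex w (fun u => (PE w Aᶜ G u - PE w ({k}ᶜ ∩ Aᶜ) G u) ^ 2) := by
      rw [Ex_sum]
      refine Finset.sum_congr rfl fun A _ => ?_
      exact Ex_mul_left _ _
    rw [e2]
    rw [← Finset.sum_filter_add_sum_filter_not univ (fun A : Finset K => k ∈ A)]
    have e3 : ∑ A ∈ univ.filter (fun A : Finset K => k ∈ A),
        wt K θ A * Ex w (fun u => (PE w Aᶜ G u - PE w ({k}ᶜ ∩ Aᶜ) G u) ^ 2) = 0 := by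
      refine Finset.sum_eq_zero fun A hA => ?_
      have hkA : k ∈ A := by simpa using hA
      have : ({k}ᶜ ∩ Aᶜ : Finset K) = Aᶜ := by
        ext j
        simp only [Finset.mem_inter, Finset.mem_compl, Finset.mem_singleton]
        constructor
        · exact fun h => h.2
        · exact fun h => ⟨fun hj => h (hj ▸ hkA), h⟩
      rw [this]
      have hz : (fun u : K → α => (PE w Aᶜ G u - PE w Aᶜ G u) ^ 2) = fun _ => (0 : ℝ) := by
        funext u; simp
      rw [hz, Ex_const hw, mul_zero]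
    rw [e3, zero_add]
    refine le_of_eq (Finset.sum_congr rfl fun A hA => ?_)
    have hkA : k ∉ A := by simpa using hA
    have s1 : insert k (insert k A)ᶜ = Aᶜ := by
      ext j
      simp only [Finset.mem_insert, Finset.mem_compl, not_or]
      constructor
      · rintro (h | h)
        · exact h ▸ hkA
        · exact h.2
      · intro h
        by_cases hj : j = k
        · exact Or.inl hj
        · exact Or.inr ⟨hj, h⟩
    have s2 : ({k}ᶜ ∩ Aᶜ : Finset K) = (insert k A)ᶜ := by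
      ext j
      simp [not_or]
    rw [hF]
    simp only [s1, s2]
  refine (Finset.sum_le_sum fun k _ => key k).trans ?_
  rw [← Finset.mul_sum]
  have e4 : ∑ k : K, ∑ A ∈ univ.filter (fun A : Finset K => k ∈ A), wt K θ A * F k A =
      ∑ A : Finset K, wt K θ A * ∑ k ∈ A, F k A := by
    simp only [Finset.sum_filter]
    rw [Finset.sum_comm]
    refine Finset.sum_congr rfl fun A _ => ?_
    rw [← Finset.sum_filter, Finset.mul_sum]
    have : (univ.filter (fun k => k ∈ A)) = A := by ext; simp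
    rw [this]
  rw [e4]
  have e5 : ∑ A : Finset K, wt K θ A * ∑ k ∈ A, F k A ≤ v * Fintype.card K := by
    calc ∑ A : Finset K, wt K θ A * ∑ k ∈ A, F k A
        ≤ ∑ A : Finset K, wt K θ A * (v * Fintype.card K) :=
          Finset.sum_le_sum fun A _ => mul_le_mul_of_nonneg_left (step1_sum hw G v h A)
            (wt_nonneg h0 hθ A)
      _ = v * Fintype.card K := by rw [← Finset.sum_mul, sum_wt, one_mul]
  have hK : (0 : ℝ) ≤ Fintype.card K := Nat.cast_nonneg _
  calc (1 - θ) / θ * ∑ A : Finset K, wt K θ A * ∑ k ∈ A, F k A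
      ≤ (1 - θ) / θ * (v * Fintype.card K) :=
        mul_le_mul_of_nonneg_left e5 (div_nonneg (by linarith) h0.le)
    _ ≤ 1 / θ * (v * Fintype.card K) := by
        refine mul_le_mul_of_nonneg_right ?_ (mul_nonneg hv hK)
        exact div_le_div_of_nonneg_right (by linarith) h0.le
    _ = v / θ * Fintype.card K := by ring

lemma step3 (hw : IsWt w) (G : (K → α) → ℝ) (C1 θ : ℝ) (h0 : 0 < θ) (hθ : θ < 1)
    (hG : ∀ (k : K) (u u' : K → α), (∀ k', k' ≠ k → u k' = u' k') → |G u - G u'| ≤ C1) :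
    Ex w (fun u => (G u - TN w θ G u) ^ 2) ≤ θ * C1 ^ 2 * Fintype.card K := by
  have e1 : ∀ u, (G u - TN w θ G u) ^ 2 ≤
      ∑ A : Finset K, wt K θ A * (G u - PE w Aᶜ G u) ^ 2 := by
    intro u
    have : G u - TN w θ G u = ∑ A : Finset K, wt K θ A * (G u - PE w Aᶜ G u) := by
      unfold TN
      simp only [mul_sub]
      rw [Finset.sum_sub_distrib, ← Finset.sum_mul, sum_wt, one_mul]
    rw [this]
    exact jensen_sq univ _ _ (fun A _ => wt_nonneg h0 hθ A) (sum_wt θ)
  refine (Ex_mono hw e1).trans ?_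
  have e2 : Ex w (fun u => ∑ A : Finset K, wt K θ A * (G u - PE w Aᶜ G u) ^ 2) =
      ∑ A : Finset K, wt K θ A * Ex w (fun u => (G u - PE w Aᶜ G u) ^ 2) := by
    rw [Ex_sum]
    exact Finset.sum_congr rfl fun A _ => Ex_mul_left _ _
  rw [e2]
  have hD : ∀ k : K, Ex w (fun u => (G u - PE w {k}ᶜ G u) ^ 2) ≤ C1 ^ 2 := by
    intro k
    refine Ex_le_of_le hw fun u => ?_
    have h1 : |G u - PE w {k}ᶜ G u| ≤ C1 := by
      have : G u - PE w {k}ᶜ G u = Ex w (fun y => G u - G (({k}ᶜ : Finset K).piecewise u y)) := by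
        rw [Ex_sub, Ex_const hw]
        rfl
      rw [this]
      refine (abs_Ex_le hw _).trans (Ex_le_of_le hw fun y => hG k _ _ fun k' hk' => ?_)
      simp [Finset.piecewise, hk']
    have h2 := abs_le.1 h1
    nlinarith [h2.1, h2.2]
  have e3 : ∀ A : Finset K, Ex w (fun u => (G u - PE w Aᶜ G u) ^ 2) ≤ A.card * C1 ^ 2 := by
    intro A
    refine (efron_stein hw A G).trans ?_
    calc ∑ k ∈ A, Ex w (fun u => (G u - PE w {k}ᶜ G u) ^ 2) ≤ ∑ k ∈ A, C1 ^ 2 :=
          Finset.sum_le_sum fun k _ => hD k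
      _ = A.card * C1 ^ 2 := by simp
  calc ∑ A : Finset K, wt K θ A * Ex w (fun u => (G u - PE w Aᶜ G u) ^ 2)
      ≤ ∑ A : Finset K, wt K θ A * (A.card * C1 ^ 2) :=
        Finset.sum_le_sum fun A _ => mul_le_mul_of_nonneg_left (e3 A) (wt_nonneg h0 hθ A)
    _ = θ * C1 ^ 2 * Fintype.card K := sum_wt_card h0 _

/-- Packet M-A3. -/
theorem noise : Spec_noise := by
  intro K α _ _ _ w hw G v C1 θ h0 hθ hv hV hG
  have h2 := step2 hw G v θ h0 hθ hv hV
  have h3 := step3 hw G C1 θ h0 hθ hG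
  have h4 : Vr w G ≤ 2 * Vr w (TN w θ G) + 2 * Ex w (fun u => (G u - TN w θ G u) ^ 2) := by
    unfold Vr
    rw [Ex_TN hw, ← Ex_mul_left, ← Ex_mul_left, ← Ex_add]
    refine Ex_mono hw fun u => ?_
    nlinarith [sq_nonneg ((TN w θ G u - Ex w G) - (G u - TN w θ G u))]
  calc Vr w G ≤ 2 * Vr w (TN w θ G) + 2 * Ex w (fun u => (G u - TN w θ G u) ^ 2) := h4
    _ ≤ 2 * ((v / θ) * Fintype.card K) + 2 * (θ * C1 ^ 2 * Fintype.card K) := by linarith
    _ = 2 * (v / θ + θ * C1 ^ 2) * Fintype.card K := by ring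

end

end Pool.Agent.Helper63.Matching
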